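import Pool.Agent.UPQ.C.Mul

/-!
# UPQ/C-Ind: the induction (paper (2.3))

`tow_mult`: induction on `i`; in the step `gen2` and `genJ_mult` are used for the generator of the
intersection of the ideals of the quadratic extensions. `tow_hw`: the generator for `F` has no
root `z` with `1 ≤ Re z ≤ 3/2` by `tow_mult`, none with `Re z > 3/2` by `ent_right`, and none with
`Re z < 1` by `gen_sym`; so it is a nonzero constant.
-/

namespace Pool.Agent.UPQ

open Polynomial
open NumberField IsDedekindDomain Pool.Agent.HWR Pool.Agent.QD Pool.Agent.QD.In Pool.Agent.LD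
  Pool.Agent.MD Pool.Agent.THF

private theorem ind_hwq {T : Finset ℕ} {D : LocData T} {a : ℕ → ℝ} {Q : ℂ[X]} {i : ℕ} {F : Type}
    [Field F] [NumberField F] (h : TowQ D a Q i F) : HWQ D a Q F := by
  cases i with
  | zero => exact h
  | succ i => exact h.1

theorem tow_mult {T : Finset ℕ} (hTp : ∀ p ∈ T, p.Prime)
    (hT : ∀ p : ℕ, p.Prime → p < 101 → p ∈ T) (D : LocData T) {a : ℕ → ℝ}
    (ha : ∀ q : ℕ, |a q| ≤ 2 * Real.sqrt q) (hfr : FrobRel T a)
    (haz : ∀ q : ℕ, ∃ n : ℤ, a q = n) {Q : ℂ[X]} (hQ : Q ≠ 0) {z : ℂ} (h1 : 1 ≤ z.re)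
    (h2 : z.re ≤ 3 / 2) (i : ℕ) (F : Type) [Field F] [NumberField F] (h : TowQ D a Q i F)
    {G : ℂ[X]} (hG : IsGen D a F G) : 2 ^ i * G.rootMultiplicity z ≤ Q.rootMultiplicity z := by
  revert G F
  induction i with
  | zero =>
    intro F _ _ h G hG
    have hd : G ∣ Q := (hG.2 Q).1 (ent_of_hwq D h)
    rw [pow_zero, one_mul]
    exact rootMultiplicity_le_rootMultiplicity_of_dvd hQ hd z
  | succ i ih =>
    intro F _ _ h G hG
    have hL : ∀ (L : Type) [Field L] [NumberField L] [Algebra F L],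
        Module.finrank F L = 2 → HWQ D a Q L := fun L _ _ _ hL => ind_hwq (h.2 L hL)
    obtain ⟨G', hG'⟩ := exists_genJ D a (K := F) hQ (fun L _ _ _ hL' => ent_of_hwq D (hL L hL'))
    have h3 : G'.rootMultiplicity z ≤ Q.rootMultiplicity z / 2 ^ i := by
      refine genJ_mult D F hG' ?_
      intro L _ _ _ hfr' GM hGM
      rw [Nat.le_div_iff_mul_le (pow_pos two_pos i), mul_comm]
      exact ih L (h.2 L hfr') hGM
    have h4 : 2 * G.rootMultiplicity z ≤ G'.rootMultiplicity z :=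
      gen2 hTp hT D ha hfr haz F hQ hL hG' hG h1 h2
    calc 2 ^ (i + 1) * G.rootMultiplicity z = 2 ^ i * (2 * G.rootMultiplicity z) := by ring
      _ ≤ 2 ^ i * (Q.rootMultiplicity z / 2 ^ i) := Nat.mul_le_mul_left _ (h4.trans h3)
      _ ≤ Q.rootMultiplicity z := Nat.mul_div_le _ _

theorem tow_hw {T : Finset ℕ} (hTp : ∀ p ∈ T, p.Prime)
    (hT : ∀ p : ℕ, p.Prime → p < 101 → p ∈ T) (D : LocData T) {a : ℕ → ℝ}
    (ha : ∀ q : ℕ, |a q| ≤ 2 * Real.sqrt q) (hfr : FrobRel T a)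
    (haz : ∀ q : ℕ, ∃ n : ℤ, a q = n) {Q : ℂ[X]} (hQ : Q ≠ 0) {j : ℕ}
    (hQj : ∀ z : ℂ, 1 ≤ z.re → z.re ≤ 3 / 2 → Q.rootMultiplicity z < 2 ^ j)
    (F : Type) [Field F] [NumberField F] (h : TowQ D a Q j F) : D.HW a F := by
  have hQF : HWQ D a Q F := ind_hwq h
  obtain ⟨G, hG⟩ := exists_gen D a hQ (ent_of_hwq D hQF)
  have hr1 : ∀ z : ℂ, 1 ≤ z.re → G.eval z ≠ 0 := by
    intro z hz h0
    rcases le_or_gt z.re (3 / 2) with hz2 | hz2
    · have h3 := tow_mult hTp hT D ha hfr haz hQ hz hz2 j F h hG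
      have h4 := hQj z hz hz2
      have h5 : 0 < G.rootMultiplicity z := (rootMultiplicity_pos hG.1).2 h0
      have h6 : 2 ^ j * 1 ≤ 2 ^ j * G.rootMultiplicity z := Nat.mul_le_mul_left _ h5
      omega
    · obtain ⟨G1, hG1⟩ := dvd_iff_isRoot.2 h0
      have hE : Ent D a ((X - C z) * G1) F := by
        rw [← hG1]
        exact (hG.2 G).2 dvd_rfl
      have hd : G ∣ G1 := (hG.2 G1).1 (ent_right D hT ha hz2 hE)
      have hG10 : G1 ≠ 0 := by
        rintro rfl
        exact hG.1 (by rw [hG1, mul_zero])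
      have h5 := natDegree_le_of_dvd hd hG10
      rw [hG1, natDegree_mul (X_sub_C_ne_zero z) hG10, natDegree_X_sub_C] at h5
      omega
  have hr : ∀ z : ℂ, G.eval z ≠ 0 := by
    intro z h0
    rcases le_or_gt 1 z.re with hz | hz
    · exact hr1 z hz h0
    · obtain ⟨κ, -, hκ⟩ := gen_sym D a hT ha hQ hQF hG
      refine hr1 (2 - z) ?_ ?_
      · rw [Complex.sub_re, Complex.re_ofNat]
        linarith
      · rw [hκ z, h0, mul_zero]
  have hdeg : G.degree = 0 := by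
    by_contra hne
    obtain ⟨z, hz⟩ := IsAlgClosed.exists_root G hne
    exact hr z hz
  have hu : G ∣ 1 := (isUnit_iff_degree_eq_zero.2 hdeg).dvd
  have hE1 : Ent D a 1 F := (hG.2 1).2 hu
  exact hw_of_one D (ent_fe D hQ hQF hE1)

end Pool.Agent.UPQ
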