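import Pool.Agent.UPQ.K.Defs

/-!
# UPQ/C-Ent: the ideal of the polynomials `P` with `P * Lam` entire (paper section 2)

Sums and products, the functional equation (identity theorem), and the relation with the Hasse-Weil property.
-/

namespace Pool.Agent.UPQ

open Polynomial
open NumberField IsDedekindDomain Pool.Agent.HWR Pool.Agent.QD Pool.Agent.QD.In Pool.Agent.LD
  Pool.Agent.MD Pool.Agent.THF

variable {T : Finset ℕ} (D : LocData T) {a : ℕ → ℝ} {F : Type} [Field F] [NumberField F]

private theorem ent_poly (R : ℂ[X]) : FinOrd fun s => R.eval s := by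
  induction R using Polynomial.induction_on' with
  | add p q hp hq =>
    have h : (fun s : ℂ => (p + q).eval s) = fun s => p.eval s + q.eval s := by
      funext s
      rw [eval_add]
    rw [h]
    exact finOrd_add hp hq
  | monomial n c =>
    have h : (fun s : ℂ => (monomial n c).eval s) = fun s => c * s ^ n := by
      funext s
      rw [eval_monomial]
    rw [h]
    exact finOrd_mul (finOrd_const c) (finOrd_pow finOrd_id n)

/-- identity theorem -/
private theorem ent_id {f g : ℂ → ℂ} (hf : Differentiable ℂ f) (hg : Differentiable ℂ g)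
    (h : ∀ s : ℂ, 3 / 2 < s.re → f s = g s) (s : ℂ) : f s = g s := by
  have hf' : AnalyticOnNhd ℂ f Set.univ := fun z _ => hf.analyticAt z
  have hg' : AnalyticOnNhd ℂ g Set.univ := fun z _ => hg.analyticAt z
  have ho : IsOpen {z : ℂ | 3 / 2 < z.re} := isOpen_lt continuous_const Complex.continuous_re
  have hm : (2 : ℂ) ∈ {z : ℂ | 3 / 2 < z.re} := by
    show (3 / 2 : ℝ) < (2 : ℂ).re
    rw [Complex.re_ofNat]
    norm_num
  have he : f =ᶠ[nhds 2] g := Filter.eventuallyEq_of_mem (ho.mem_nhds hm) fun z hz => h z hz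
  exact hf'.eqOn_of_preconnected_of_eventuallyEq hg' isPreconnected_univ (Set.mem_univ 2) he (Set.mem_univ s)

private theorem ent_fin {Q : ℂ[X]} (hQ : Q ≠ 0) : {s : ℂ | Q.eval s * Q.eval (2 - s) = 0}.Finite := by
  have h1 : {s : ℂ | Q.eval s = 0}.Finite := by
    refine Set.Finite.subset Q.roots.toFinset.finite_toSet fun s hs => ?_
    rw [Finset.mem_coe, Multiset.mem_toFinset, mem_roots hQ]
    exact hs
  have h2 : {s : ℂ | Q.eval (2 - s) = 0}.Finite :=
    h1.preimage (f := fun s : ℂ => 2 - s) (fun x _ y _ hxy => by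
      have h3 : (2 : ℂ) - x = 2 - y := hxy
      linear_combination -h3)
  refine (h1.union h2).subset fun s hs => ?_
  rcases mul_eq_zero.1 hs with h | h
  · exact Or.inl h
  · exact Or.inr h

theorem ent_zero : Ent D a 0 F :=
  ⟨fun _ => 0, differentiable_const 0, finOrd_const 0, fun s _ => by rw [eval_zero, zero_mul]⟩

theorem ent_add {P Q : ℂ[X]} (hP : Ent D a P F) (hQ : Ent D a Q F) : Ent D a (P + Q) F := by
  obtain ⟨A, h1, h2, h3⟩ := hP
  obtain ⟨B, h4, h5, h6⟩ := hQ
  refine ⟨fun s => A s + B s, h1.add h4, finOrd_add h2 h5, fun s hs => ?_⟩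
  show A s + B s = _
  rw [h3 s hs, h6 s hs, eval_add]
  ring

theorem ent_mul {P : ℂ[X]} (R : ℂ[X]) (hP : Ent D a P F) : Ent D a (R * P) F := by
  obtain ⟨A, h1, h2, h3⟩ := hP
  refine ⟨fun s => R.eval s * A s, R.differentiable.mul h1, finOrd_mul (ent_poly R) h2, fun s hs => ?_⟩
  show R.eval s * A s = _
  rw [h3 s hs, eval_mul]
  ring

theorem ent_fe {Q P : ℂ[X]} (hQ : Q ≠ 0) (h : HWQ D a Q F) (hP : Ent D a P F) :
    HWQ D a P F := by
  obtain ⟨A, h1, h2, h3⟩ := hP
  obtain ⟨B, h4, h5, h6, h7⟩ := h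
  refine ⟨A, h1, h2, h3, ?_⟩
  have h8 : ∀ s : ℂ, A s * Q.eval s = B s * P.eval s :=
    ent_id (h1.mul Q.differentiable) (h4.mul P.differentiable) fun s hs => by
      rw [h3 s hs, h6 s hs]
      ring
  have hsub : Differentiable ℂ fun s : ℂ => 2 - s := (differentiable_const 2).sub differentiable_id
  have hd : Dense ({s : ℂ | Q.eval s * Q.eval (2 - s) = 0}ᶜ) := (ent_fin hQ).countable.dense_compl ℂ
  have hc1 : Continuous fun s : ℂ => A s * P.eval (2 - s) :=
    h1.continuous.mul (P.continuous.comp hsub.continuous)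
  have hc2 : Continuous fun s : ℂ => D.w F * (A (2 - s) * P.eval s) :=
    continuous_const.mul ((h1.continuous.comp hsub.continuous).mul P.continuous)
  have h9 := Continuous.ext_on hd hc1 hc2 (fun s hs => by
    have hs' : Q.eval s * Q.eval (2 - s) ≠ 0 := hs
    refine mul_right_cancel₀ hs' ?_
    have e1 := h8 s
    have e2 := h8 (2 - s)
    have e3 := h7 s
    linear_combination (P.eval (2 - s) * Q.eval (2 - s)) * e1 - (D.w F * P.eval s * Q.eval s) * e2 +
      (P.eval s * P.eval (2 - s)) * e3)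
  exact fun s => congrFun h9 s

theorem hw_of_one (h : HWQ D a 1 F) : D.HW a F := by
  obtain ⟨A, h1, h2, h3, h4⟩ := h
  refine ⟨A, h1, h2, fun s => ?_, fun s hs => ?_⟩
  · have h5 := h4 s
    rw [eval_one, eval_one, mul_one, mul_one] at h5
    exact h5
  · have h5 := h3 s hs
    rw [eval_one, one_mul] at h5
    exact h5

theorem hwq_of_hw (h : D.HW a F) (Q : ℂ[X]) : HWQ D a Q F := by
  obtain ⟨A, h1, h2, h3, h4⟩ := h
  refine ⟨fun s => Q.eval s * A s, Q.differentiable.mul h1, finOrd_mul (ent_poly Q) h2, fun s hs => ?_, fun s => ?_⟩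
  · show Q.eval s * A s = _
    rw [h4 s hs]
  · have h5 := h3 s
    show Q.eval s * A s * Q.eval (2 - s) = D.w F * (Q.eval (2 - s) * A (2 - s) * Q.eval s)
    linear_combination (Q.eval s * Q.eval (2 - s)) * h5

theorem ent_of_hwq {Q : ℂ[X]} (h : HWQ D a Q F) : Ent D a Q F := by
  obtain ⟨A, h1, h2, h3, _⟩ := h
  exact ⟨A, h1, h2, h3⟩

end Pool.Agent.UPQ
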