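import Pool.Agent.UPQ.C.Ent

/-!
# UPQ/C-EntB: division and reflection (paper section 2)

`ent_div`: the quotient of an entire function of finite order by `X - z` at a zero `z` is entire and of finite
order. `ent_right`: hence no zero of the multiplier in `Re z > 3/2` is needed. `ent_refl`: the functional
equation carries the multiplier `P` to its reflection `P (2 - X)`.
-/

namespace Pool.Agent.UPQ

open Polynomial
open NumberField IsDedekindDomain Pool.Agent.HWR Pool.Agent.QD Pool.Agent.QD.In Pool.Agent.LD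
  Pool.Agent.MD Pool.Agent.THF

variable {T : Finset ℕ} (D : LocData T) {a : ℕ → ℝ} {F : Type} [Field F] [NumberField F]

private theorem entb_diff {ι : Type} {f : ι → ℂ → ℂ} {σ₀ : ℝ} {u : ℝ → ι → ℝ}
    (hu : ∀ b, σ₀ < b → Summable (u b))
    (hb : ∀ b, σ₀ < b → ∀ s : ℂ, b ≤ s.re → ∀ i, ‖f i s - 1‖ ≤ u b i)
    (hd : ∀ i (s : ℂ), σ₀ < s.re → DifferentiableAt ℂ (f i) s) :
    DifferentiableOn ℂ (fun s => ∏' i, f i s) {s : ℂ | σ₀ < s.re} := by
  intro s hs
  have hs' : σ₀ < s.re := hs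
  have hb0 : σ₀ < (σ₀ + s.re) / 2 := by linarith
  have hU : IsOpen {z : ℂ | (σ₀ + s.re) / 2 < z.re} := isOpen_lt continuous_const Complex.continuous_re
  have hsU : s ∈ {z : ℂ | (σ₀ + s.re) / 2 < z.re} := by
    change (σ₀ + s.re) / 2 < s.re
    linarith
  have h1 := Summable.hasProdLocallyUniformlyOn_one_add (f := fun i z => f i z - 1) hU (hu _ hb0)
    (Filter.Eventually.of_forall fun i z hz => hb _ hb0 z (le_of_lt hz) i)
    (fun i z hz => ((hd i z (hb0.trans hz)).continuousAt.sub continuousAt_const).continuousWithinAt)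
  simp only [add_sub_cancel] at h1
  rw [hasProdLocallyUniformlyOn_iff_tendstoLocallyUniformlyOn] at h1
  have h2 := h1.differentiableOn (Filter.Eventually.of_forall fun t z hz => by
    refine DifferentiableAt.differentiableWithinAt ?_
    exact DifferentiableAt.fun_finsetProd fun i _ => hd i z (hb0.trans hz)) hU
  exact (h2.differentiableAt (hU.mem_nhds hsU)).differentiableWithinAt

private theorem entb_LT {K : Type} [Field K] [NumberField K] {T : Finset ℕ}
    (hT : ∀ p : ℕ, p.Prime → p < 101 → p ∈ T) {a : ℕ → ℝ}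
    (ha : ∀ q : ℕ, |a q| ≤ 2 * Real.sqrt q) :
    DifferentiableOn ℂ (LT K a T) {s : ℂ | 3 / 2 < s.re} := by
  have h := entb_diff (σ₀ := 3 / 2)
    (f := fun (v : {v : HeightOneSpectrum (𝓞 K) // Away K T v}) s => efac a (nrm v.1) s)
    (u := fun b v => 3 * (nrm v.1 : ℝ) ^ (1 / 2 - b)) ?_ ?_ ?_
  · exact h
  · intro b hb
    have h2 := ((summable_nrm K (x := b - 1 / 2) (by linarith)).comp_injective
      (Subtype.val_injective (p := fun w => Away K T w))).mul_left 3
    refine h2.congr fun v => ?_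
    have h4 : (1 / 2 - b : ℝ) = -(b - 1 / 2) := by ring
    rw [h4]
    rfl
  · intro b hb s hs v
    refine (efac_sub_one ha (nrm_ge K T hT v.1 v.2) (by linarith)).trans ?_
    have h0 := nrm_ge K T hT v.1 v.2
    have h1 : (1 : ℝ) ≤ nrm v.1 := by exact_mod_cast (by omega : 1 ≤ nrm v.1)
    have h2 := Real.rpow_le_rpow_of_exponent_le h1 (show 1 / 2 - s.re ≤ 1 / 2 - b by linarith)
    linarith
  · intro v s hs
    exact efac_diff ha (nrm_ge K T hT v.1 v.2) (by linarith)

private theorem entb_Lam (hT : ∀ p : ℕ, p.Prime → p < 101 → p ∈ T)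
    (ha : ∀ q : ℕ, |a q| ≤ 2 * Real.sqrt q) :
    DifferentiableOn ℂ (D.Lam a F) {s : ℂ | 3 / 2 < s.re} := by
  have hA : ((D.A F : ℝ) : ℂ) ≠ 0 := by exact_mod_cast (Pool.Agent.H73.AL.A_pos D F).ne'
  intro s hs
  have hs' : 3 / 2 < s.re := hs
  have h1 : DifferentiableWithinAt ℂ (fun s : ℂ => ((D.A F : ℝ) : ℂ) ^ (s / 2))
      {s : ℂ | 3 / 2 < s.re} s :=
    ((differentiableAt_id.div_const 2).const_cpow (Or.inl hA)).differentiableWithinAt
  have h2 : DifferentiableWithinAt ℂ (fun s : ℂ => gam1 s ^ Module.finrank ℚ F)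
      {s : ℂ | 3 / 2 < s.re} s :=
    ((gam1_diff (by linarith : 0 < s.re)).pow _).differentiableWithinAt
  have h3 : DifferentiableWithinAt ℂ (fun s : ℂ => LT F a T s / D.pl F s)
      {s : ℂ | 3 / 2 < s.re} s :=
    (entb_LT hT ha s hs).div (Pool.Agent.QD.In.pl_diff D F s).differentiableWithinAt
      (Pool.Agent.QD.In.pl_ne D F hs'.le)
  exact (h1.mul h2).mul h3

private theorem entb_cont (hT : ∀ p : ℕ, p.Prime → p < 101 → p ∈ T)
    (ha : ∀ q : ℕ, |a q| ≤ 2 * Real.sqrt q) {s : ℂ} (hs : 3 / 2 < s.re) :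
    ContinuousAt (D.Lam a F) s :=
  ((entb_Lam D hT ha).differentiableAt
    ((isOpen_lt continuous_const Complex.continuous_re).mem_nhds hs)).continuousAt

private theorem entb_ord {f g : ℂ → ℂ} (hf : FinOrd f) {M : ℝ} (h : ∀ s, ‖g s‖ ≤ ‖f s‖ + M) :
    FinOrd g := by
  have h1 : FinOrd fun s => ((‖f s‖ : ℝ) : ℂ) := by
    intro x y
    obtain ⟨A, C, h2⟩ := hf x y
    refine ⟨A, C, fun s h3 h4 => ?_⟩
    rw [Complex.norm_real, norm_norm]
    exact h2 s h3 h4
  have h2 := Pool.Agent.QD.In.finOrd_add h1 (Pool.Agent.QD.In.finOrd_const (M : ℂ))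
  intro x y
  obtain ⟨A, C, h3⟩ := h2 x y
  refine ⟨A, C, fun s h4 h5 => ?_⟩
  refine le_trans ?_ (h3 s h4 h5)
  have h6 : ((‖f s‖ : ℝ) : ℂ) + (M : ℂ) = ((‖f s‖ + M : ℝ) : ℂ) := by push_cast; ring
  show ‖g s‖ ≤ ‖((‖f s‖ : ℝ) : ℂ) + (M : ℂ)‖
  rw [h6, Complex.norm_real]
  exact (h s).trans (le_abs_self _)

theorem ent_div (hT : ∀ p : ℕ, p.Prime → p < 101 → p ∈ T) (ha : ∀ q : ℕ, |a q| ≤ 2 * Real.sqrt q)
    {P : ℂ[X]} {z : ℂ} {A : ℂ → ℂ} (hA : Differentiable ℂ A)
    (hAo : FinOrd A) (hAe : ∀ s : ℂ, 3 / 2 < s.re → A s = ((X - C z) * P).eval s * D.Lam a F s)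
    (hz : A z = 0) : Ent D a P F := by
  have hsm : ∀ s, (s - z) * dslope A z s = A s := by
    intro s
    have h1 := sub_smul_dslope A z s
    rw [smul_eq_mul, hz, sub_zero] at h1
    exact h1
  have hBd : Differentiable ℂ (dslope A z) := by
    rw [← differentiableOn_univ]
    exact (Complex.differentiableOn_dslope Filter.univ_mem).2 hA.differentiableOn
  refine ⟨dslope A z, hBd, ?_, ?_⟩
  · obtain ⟨M, hM⟩ := (isCompact_closedBall z 1).exists_bound_of_continuousOn
      hBd.continuous.continuousOn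
    refine entb_ord hAo (M := |M|) fun s => ?_
    by_cases hs : ‖s - z‖ ≤ 1
    · have h1 := hM s (by rw [Metric.mem_closedBall, dist_eq_norm]; exact hs)
      have h2 := norm_nonneg (A s)
      have h3 := le_abs_self M
      linarith
    · push Not at hs
      have h1 : ‖A s‖ = ‖s - z‖ * ‖dslope A z s‖ := by rw [← hsm s, norm_mul]
      have h2 := norm_nonneg (dslope A z s)
      have h3 := abs_nonneg M
      nlinarith
  · have key : ∀ s : ℂ, 3 / 2 < s.re → s ≠ z → dslope A z s = P.eval s * D.Lam a F s := by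
      intro s hs hsz
      have h1 := hAe s hs
      rw [← hsm s, eval_mul, eval_sub, eval_X, eval_C, mul_assoc] at h1
      exact mul_left_cancel₀ (sub_ne_zero.2 hsz) h1
    intro s hs
    by_cases hsz : s = z
    · have h1 : dslope A z =ᶠ[nhdsWithin s {s}ᶜ] fun u => P.eval u * D.Lam a F u := by
        have h2 : {u : ℂ | 3 / 2 < u.re} ∈ nhds s :=
          (isOpen_lt continuous_const Complex.continuous_re).mem_nhds hs
        filter_upwards [mem_nhdsWithin_of_mem_nhds h2, self_mem_nhdsWithin] with u hu hu'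
        exact key u hu (by rw [← hsz]; exact hu')
      have h3 : ContinuousAt (fun u => P.eval u * D.Lam a F u) s :=
        P.continuous.continuousAt.mul (entb_cont D hT ha hs)
      exact ((hBd.continuous.continuousAt.eventuallyEq_nhds_iff_eventuallyEq_nhdsNE h3).1
        h1).eq_of_nhds
    · exact key s hs hsz

theorem ent_right (hT : ∀ p : ℕ, p.Prime → p < 101 → p ∈ T)
    (ha : ∀ q : ℕ, |a q| ≤ 2 * Real.sqrt q) {P : ℂ[X]} {z : ℂ} (hz : 3 / 2 < z.re)
    (h : Ent D a ((X - C z) * P) F) : Ent D a P F := by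
  obtain ⟨A, h1, h2, h3⟩ := h
  refine ent_div D hT ha h1 h2 h3 ?_
  rw [h3 z hz, eval_mul, eval_sub, eval_X, eval_C, sub_self, zero_mul, zero_mul]

theorem ent_refl (hT : ∀ p : ℕ, p.Prime → p < 101 → p ∈ T)
    (ha : ∀ q : ℕ, |a q| ≤ 2 * Real.sqrt q) {Q P : ℂ[X]} (hQ : Q ≠ 0) (h : HWQ D a Q F)
    (hP : Ent D a P F) : Ent D a (P.comp (C 2 - X)) F := by
  by_cases hP0 : P = 0
  · rw [hP0, zero_comp]
    exact ent_zero D
  obtain ⟨A, h1, h2, h3, h4⟩ := ent_fe D hQ h hP
  have hev : ∀ s : ℂ, (P.comp (C 2 - X)).eval s = P.eval (2 - s) := by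
    intro s
    rw [eval_comp, eval_sub, eval_C, eval_X]
  have hd : Differentiable ℂ fun s => D.w F * A (2 - s) :=
    (h1.comp ((differentiable_const _).sub differentiable_id)).const_mul _
  refine ⟨fun s => D.w F * A (2 - s), hd, ?_, ?_⟩
  · have h5 : FinOrd fun s => A (2 - s) := by
      intro x y
      obtain ⟨B, C', h6⟩ := h2 (2 - y) (2 - x)
      refine ⟨B, C', fun s h7 h8 => ?_⟩
      have h9 := h6 (2 - s) (by simp; linarith) (by simp; linarith)
      have h10 : |(2 - s).im| = |s.im| := by simp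
      rw [h10] at h9
      exact h9
    exact Pool.Agent.QD.In.finOrd_mul (Pool.Agent.QD.In.finOrd_const (D.w F)) h5
  · have key : ∀ s : ℂ, 3 / 2 < s.re → P.eval s ≠ 0 →
        D.w F * A (2 - s) = P.eval (2 - s) * D.Lam a F s := by
      intro s hs hs0
      have h5 := h4 s
      rw [h3 s hs] at h5
      refine mul_left_cancel₀ hs0 ?_
      linear_combination -h5
    intro s hs
    show D.w F * A (2 - s) = _
    rw [hev s]
    have hfin : ({u : ℂ | P.IsRoot u} \ {s}).Finite :=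
      (Polynomial.finite_setOfPred_isRoot hP0).subset Set.sdiff_subset
    have h5 : (fun u => D.w F * A (2 - u)) =ᶠ[nhdsWithin s {s}ᶜ]
        fun u => P.eval (2 - u) * D.Lam a F u := by
      have h6 : {u : ℂ | 3 / 2 < u.re} ∈ nhds s :=
        (isOpen_lt continuous_const Complex.continuous_re).mem_nhds hs
      have h7 : ({u : ℂ | P.IsRoot u} \ {s})ᶜ ∈ nhds s :=
        hfin.isClosed.isOpen_compl.mem_nhds fun h => h.2 rfl
      filter_upwards [mem_nhdsWithin_of_mem_nhds h6, mem_nhdsWithin_of_mem_nhds h7,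
        self_mem_nhdsWithin] with u hu hu1 hu2
      exact key u hu fun h0 => hu1 ⟨h0, hu2⟩
    have h8 : ContinuousAt (fun u => P.eval (2 - u) * D.Lam a F u) s :=
      (P.continuous.comp (continuous_const.sub continuous_id)).continuousAt.mul
        (entb_cont D hT ha hs)
    exact ((hd.continuous.continuousAt.eventuallyEq_nhds_iff_eventuallyEq_nhdsNE h8).1
      h5).eq_of_nhds

end Pool.Agent.UPQ
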