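import Pool.Agent.UPQ.C.EntB

/-!
# UPQ/C-Gen: generators

The set of the polynomials `P` with `Ent D a P F` is an ideal of the principal ideal ring `ℂ[X]` (`exists_gen`,
`exists_genJ`). As it is stable under `P ↦ P (2 - X)` (`ent_refl`), its generator `G` satisfies `G (2 - X) = ± G`.
-/

namespace Pool.Agent.UPQ

open Polynomial
open NumberField IsDedekindDomain Pool.Agent.HWR Pool.Agent.QD Pool.Agent.QD.In Pool.Agent.LD
  Pool.Agent.MD Pool.Agent.THF

variable {T : Finset ℕ} (D : LocData T) (a : ℕ → ℝ)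

/-- `G` generates the ideal of `F` -/
def IsGen (F : Type) [Field F] [NumberField F] (G : ℂ[X]) : Prop :=
  G ≠ 0 ∧ ∀ P : ℂ[X], Ent D a P F ↔ G ∣ P

/-- `G` generates the intersection of the ideals of the quadratic extensions of `K` -/
def IsGenJ (K : Type) [Field K] [NumberField K] (G : ℂ[X]) : Prop :=
  G ≠ 0 ∧ ∀ P : ℂ[X], (∀ (L : Type) [Field L] [NumberField L] [Algebra K L],
    Module.finrank K L = 2 → Ent D a P L) ↔ G ∣ P

theorem exists_gen {F : Type} [Field F] [NumberField F] {Q : ℂ[X]} (hQ : Q ≠ 0)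
    (h : Ent D a Q F) : ∃ G, IsGen D a F G := by
  let I : Ideal ℂ[X] :=
    { carrier := {P | Ent D a P F}
      zero_mem' := ent_zero D
      add_mem' := fun h1 h2 => ent_add D h1 h2
      smul_mem' := fun R _ h1 => ent_mul D R h1 }
  have hI : ∀ P, P ∈ I ↔ Ent D a P F := fun P => Iff.rfl
  refine ⟨Submodule.IsPrincipal.generator I, ?_, fun P => ?_⟩
  · intro h0
    have h1 : Submodule.IsPrincipal.generator I ∣ Q :=
      (Submodule.IsPrincipal.mem_iff_generator_dvd I).1 ((hI Q).2 h)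
    rw [h0] at h1
    exact hQ (zero_dvd_iff.1 h1)
  · rw [← hI, Submodule.IsPrincipal.mem_iff_generator_dvd I]

theorem exists_genJ {K : Type} [Field K] [NumberField K] {Q : ℂ[X]} (hQ : Q ≠ 0)
    (h : ∀ (L : Type) [Field L] [NumberField L] [Algebra K L], Module.finrank K L = 2 →
      Ent D a Q L) : ∃ G, IsGenJ D a K G := by
  let I : Ideal ℂ[X] :=
    { carrier := {P | ∀ (L : Type) [Field L] [NumberField L] [Algebra K L],
        Module.finrank K L = 2 → Ent D a P L}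
      zero_mem' := fun _ _ _ _ _ => ent_zero D
      add_mem' := fun h1 h2 L _ _ _ h3 => ent_add D (h1 L h3) (h2 L h3)
      smul_mem' := fun R _ h1 L _ _ _ h3 => ent_mul D R (h1 L h3) }
  have hI : ∀ P, P ∈ I ↔ ∀ (L : Type) [Field L] [NumberField L] [Algebra K L],
      Module.finrank K L = 2 → Ent D a P L := fun P => Iff.rfl
  refine ⟨Submodule.IsPrincipal.generator I, ?_, fun P => ?_⟩
  · intro h0
    have h1 : Submodule.IsPrincipal.generator I ∣ Q :=
      (Submodule.IsPrincipal.mem_iff_generator_dvd I).1 ((hI Q).2 h)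
    rw [h0] at h1
    exact hQ (zero_dvd_iff.1 h1)
  · rw [← hI, Submodule.IsPrincipal.mem_iff_generator_dvd I]

theorem sym_of_dvd {G : ℂ[X]} (hG : G ≠ 0) (h : G ∣ G.comp (C 2 - X)) :
    ∃ κ : ℂ, (κ = 1 ∨ κ = -1) ∧ ∀ s : ℂ, G.eval (2 - s) = κ * G.eval s := by
  obtain ⟨R, hR⟩ := h
  have h1 : (C 2 - X : ℂ[X]).natDegree = 1 := by
    rw [natDegree_sub, natDegree_X_sub_C]
  have h2 : (G.comp (C 2 - X)).natDegree = G.natDegree := by
    rw [natDegree_comp, h1, mul_one]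
  have h3 : G.comp (C 2 - X) ≠ 0 := by
    intro h4
    rw [comp_eq_zero_iff] at h4
    rcases h4 with h4 | h4
    · exact hG h4
    · have h5 := congrArg natDegree h4.2
      rw [h1, natDegree_C] at h5
      omega
  have hR0 : R ≠ 0 := by
    rintro rfl
    rw [mul_zero] at hR
    exact h3 hR
  have h4 : R.natDegree = 0 := by
    rw [hR, natDegree_mul hG hR0] at h2
    omega
  obtain ⟨κ, rfl⟩ := natDegree_eq_zero.1 h4
  have h5 : ∀ s : ℂ, G.eval (2 - s) = κ * G.eval s := by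
    intro s
    have h6 := congrArg (fun q => q.eval s) hR
    simp only [eval_comp, eval_sub, eval_C, eval_X, eval_mul] at h6
    rw [h6, mul_comm]
  refine ⟨κ, ?_, h5⟩
  have h6 : ∃ s : ℂ, G.eval s ≠ 0 := by
    by_contra h7
    push Not at h7
    exact hG (Polynomial.funext fun s => by rw [h7 s, eval_zero])
  obtain ⟨s, hs⟩ := h6
  have h7 : G.eval s = κ * (κ * G.eval s) := by
    rw [← h5 s, ← h5 (2 - s)]
    congr 1
    ring
  have h8 : κ * κ = 1 := by
    have h9 : (κ * κ - 1) * G.eval s = 0 := by linear_combination -h7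
    rcases mul_eq_zero.1 h9 with h10 | h10
    · exact sub_eq_zero.1 h10
    · exact absurd h10 hs
  exact mul_self_eq_one_iff.1 h8

theorem gen_sym (hT : ∀ p : ℕ, p.Prime → p < 101 → p ∈ T)
    (ha : ∀ q : ℕ, |a q| ≤ 2 * Real.sqrt q) {F : Type} [Field F] [NumberField F] {Q G : ℂ[X]}
    (hQ : Q ≠ 0) (h : HWQ D a Q F) (hG : IsGen D a F G) :
    ∃ κ : ℂ, (κ = 1 ∨ κ = -1) ∧ ∀ s : ℂ, G.eval (2 - s) = κ * G.eval s :=
  sym_of_dvd hG.1 ((hG.2 _).1 (ent_refl D hT ha hQ h ((hG.2 G).2 dvd_rfl)))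

theorem genJ_sym (hT : ∀ p : ℕ, p.Prime → p < 101 → p ∈ T)
    (ha : ∀ q : ℕ, |a q| ≤ 2 * Real.sqrt q) {K : Type} [Field K] [NumberField K] {Q G : ℂ[X]}
    (hQ : Q ≠ 0) (h : ∀ (L : Type) [Field L] [NumberField L] [Algebra K L],
      Module.finrank K L = 2 → HWQ D a Q L) (hG : IsGenJ D a K G) :
    ∃ κ : ℂ, (κ = 1 ∨ κ = -1) ∧ ∀ s : ℂ, G.eval (2 - s) = κ * G.eval s :=
  sym_of_dvd hG.1 ((hG.2 _).1 fun L _ _ _ hL =>
    ent_refl D hT ha hQ (h L hL) ((hG.2 G).2 dvd_rfl L hL))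

end Pool.Agent.UPQ
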