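import Pool.Agent.UPQ.C.Gen
import Pool.Agent.UPQ.K.Core

/-!
# UPQ/C-Mul: the multiplicities of the generators (paper (2.1), (2.2))

`gen2`: if `M < 2 k`, `k`, `M` the multiplicities of `z` in the generators `GK`, `G`, the core theorem,
applied to `P * G = R ^ 2`, `R = (X - C z) ^ k * G' * G''`, shows that `GK * Lam` vanishes at `z`, and
`GK` is not a generator.
`genJ_mult`: `G = (X - C z) ^ M * G'`; every generator `GM` divides `(X - C z) ^ h0 * G'`.
-/

namespace Pool.Agent.UPQ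

open Polynomial
open NumberField IsDedekindDomain Pool.Agent.HWR Pool.Agent.QD Pool.Agent.QD.In Pool.Agent.LD
  Pool.Agent.MD Pool.Agent.THF

private theorem Mul_le {z : ℂ} {H : ℂ[X]} (hH : H ≠ 0) {m n : ℕ}
    (h : (X - C z) ^ m * H ∣ (X - C z) ^ n * H) : m ≤ n := by
  have h1 : (X - C z) ^ m ∣ (X - C z) ^ n := (mul_dvd_mul_iff_right hH).1 h
  exact (pow_dvd_pow_iff (X_sub_C_ne_zero z) (not_isUnit_X_sub_C z)).1 h1

theorem gen2 {T : Finset ℕ} (hTp : ∀ p ∈ T, p.Prime)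
    (hT : ∀ p : ℕ, p.Prime → p < 101 → p ∈ T) (D : LocData T) {a : ℕ → ℝ}
    (ha : ∀ q : ℕ, |a q| ≤ 2 * Real.sqrt q) (hfr : FrobRel T a)
    (haz : ∀ q : ℕ, ∃ n : ℤ, a q = n) (K : Type) [Field K] [NumberField K] {Q G GK : ℂ[X]}
    (hQ : Q ≠ 0) (h : ∀ (L : Type) [Field L] [NumberField L] [Algebra K L],
      Module.finrank K L = 2 → HWQ D a Q L) (hG : IsGenJ D a K G) (hGK : IsGen D a K GK) {z : ℂ}
    (h1 : 1 ≤ z.re) (h2 : z.re ≤ 3 / 2) :
    2 * GK.rootMultiplicity z ≤ G.rootMultiplicity z := by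
  by_contra hlt
  have hG0 := hG.1
  have hGK0 := hGK.1
  obtain ⟨G', hG', hG'd⟩ := G.exists_eq_pow_rootMultiplicity_mul_and_not_dvd hG0 z
  obtain ⟨G'', hG'', hG''d⟩ := GK.exists_eq_pow_rootMultiplicity_mul_and_not_dvd hGK0 z
  generalize GK.rootMultiplicity z = k at hlt hG''
  generalize G.rootMultiplicity z = M at hlt hG'
  obtain ⟨j, hj⟩ : ∃ j, k = j + 1 := ⟨k - 1, by omega⟩
  obtain ⟨l, hl⟩ : ∃ l, 2 * k = (l + 1) + M := ⟨2 * k - M - 1, by omega⟩
  have hG''0 : G'' ≠ 0 := by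
    rintro rfl
    exact hG''d (dvd_zero _)
  have HL : ∀ (L : Type) [Field L] [NumberField L] [Algebra K L], Module.finrank K L = 2 →
      HWQ D a G L := fun L _ _ _ hL => ent_fe D hQ (h L hL) ((hG.2 G).2 dvd_rfl L hL)
  obtain ⟨κ, hκ, hsym⟩ := genJ_sym D a hT ha hQ h hG
  obtain ⟨B, hB, hBo, hBe⟩ := (hGK.2 GK).2 dvd_rfl
  have hPG : ((X - C z) ^ (l + 1) * G' * G'' ^ 2) * G = ((X - C z) ^ k * G' * G'') ^ 2 := by
    rw [hG']
    have e : (X - C z : ℂ[X]) ^ (l + 1) * (X - C z) ^ M = ((X - C z) ^ k) ^ 2 := by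
      rw [← pow_add, ← hl, mul_comm 2 k, pow_mul]
    linear_combination (G' ^ 2 * G'' ^ 2) * e
  have hPz : ((X - C z) ^ (l + 1) * G' * G'' ^ 2).eval z = 0 := by
    rw [eval_mul, eval_mul, eval_pow, eval_sub, eval_X, eval_C, sub_self, pow_succ, mul_zero,
      zero_mul, zero_mul]
  have hAd : Differentiable ℂ fun s => G'.eval s * B s := G'.differentiable.mul hB
  have hAe : ∀ s : ℂ, 3 / 2 < s.re → G'.eval s * B s =
      ((X - C z) ^ k * G' * G'').eval s * D.Lam a K s := by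
    intro s hs
    have e2 : GK.eval s = ((X - C z) ^ k).eval s * G''.eval s := by
      rw [← eval_mul, ← hG'']
    rw [hBe s hs, e2, eval_mul, eval_mul]
    ring
  have hz := core hTp hT D ha hfr haz K hκ hG0 hsym hPG h1 h2 hPz HL hAd hAe
  have hBz : B z = 0 := by
    refine (mul_eq_zero.1 hz).resolve_left fun h0 => hG'd ?_
    rw [dvd_iff_isRoot]
    exact h0
  have hE : Ent D a ((X - C z) ^ j * G'') K := by
    refine ent_div D hT ha (z := z) hB hBo (fun s hs => ?_) hBz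
    rw [hBe s hs]
    congr 2
    rw [hG'', hj]
    ring
  have hdvd := (hGK.2 _).1 hE
  rw [hG''] at hdvd
  have := Mul_le hG''0 hdvd
  omega

theorem genJ_mult {T : Finset ℕ} (D : LocData T) {a : ℕ → ℝ} (K : Type) [Field K]
    [NumberField K] {G : ℂ[X]} (hG : IsGenJ D a K G) {z : ℂ} {h0 : ℕ}
    (h : ∀ (L : Type) [Field L] [NumberField L] [Algebra K L], Module.finrank K L = 2 →
      ∀ GM : ℂ[X], IsGen D a L GM → GM.rootMultiplicity z ≤ h0) :
    G.rootMultiplicity z ≤ h0 := by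
  obtain ⟨G', hG', hG'd⟩ := G.exists_eq_pow_rootMultiplicity_mul_and_not_dvd hG.1 z
  have hG'0 : G' ≠ 0 := by
    rintro rfl
    exact hG'd (dvd_zero _)
  have hE : ∀ (L : Type) [Field L] [NumberField L] [Algebra K L], Module.finrank K L = 2 →
      Ent D a ((X - C z) ^ h0 * G') L := by
    intro L _ _ _ hL
    obtain ⟨GM, hGM⟩ := exists_gen D a hG.1 ((hG.2 G).2 dvd_rfl L hL)
    have hm := h L hL GM hGM
    have hd : GM ∣ G := (hGM.2 G).1 ((hG.2 G).2 dvd_rfl L hL)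
    obtain ⟨H, hH, hHd⟩ := GM.exists_eq_pow_rootMultiplicity_mul_and_not_dvd hGM.1 z
    have hcop : IsCoprime H ((X - C z) ^ G.rootMultiplicity z) := by
      apply IsCoprime.pow_right
      apply IsCoprime.symm
      exact (irreducible_X_sub_C z).coprime_iff_not_dvd.2 hHd
    have hHG : H ∣ G' := by
      apply hcop.dvd_of_dvd_mul_left
      rw [← hG']
      refine dvd_trans ?_ hd
      exact ⟨(X - C z) ^ GM.rootMultiplicity z, by rw [mul_comm]; exact hH⟩
    refine (hGM.2 _).2 ?_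
    rw [hH]
    exact mul_dvd_mul (pow_dvd_pow _ hm) hHG
  have hdvd := (hG.2 _).1 hE
  nth_rw 1 [hG'] at hdvd
  exact Mul_le hG'0 hdvd

end Pool.Agent.UPQ
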